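import Mathlib

/-!
# The symmetric local lemma on finite product spaces (counting form)
-/

namespace MP433A

open Finset

variable {I : Type*} [Fintype I] [DecidableEq I] {Om : I → Type*} [∀ i, Fintype (Om i)]
  [∀ i, DecidableEq (Om i)]

/-- Independence: an event depending only on the coordinates in `S` and an event depending only on
the other coordinates. -/
lemma indep (S : Finset I) (A B : Finset (∀ i, Om i))
    (hA : ∀ w w', (∀ i ∈ S, w i = w' i) → w ∈ A → w' ∈ A)
    (hB : ∀ w w', (∀ i, i ∉ S → w i = w' i) → w ∈ B → w' ∈ B) :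
    A.card * B.card = (A ∩ B).card * Fintype.card (∀ i, Om i) := by
  classical
  rw [← card_univ, ← card_product, ← card_product]
  let mix : (∀ i, Om i) → (∀ i, Om i) → (∀ i, Om i) := fun w w' i => if i ∈ S then w i else w' i
  have m1 : ∀ w w' i, i ∈ S → mix w w' i = w i := fun w w' i hi => if_pos hi
  have m2 : ∀ w w' i, i ∉ S → mix w w' i = w' i := fun w w' i hi => if_neg hi
  refine card_bij' (fun q _ => (mix q.1 q.2, mix q.2 q.1)) (fun q _ => (mix q.1 q.2, mix q.2 q.1))
    ?_ ?_ ?_ ?_
  · rintro ⟨w, w'⟩ h
    rw [mem_product] at h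
    rw [mem_product, mem_inter]
    exact ⟨⟨hA w _ (fun i hi => (m1 _ _ i hi).symm) h.1,
      hB w' _ (fun i hi => (m2 _ _ i hi).symm) h.2⟩, mem_univ _⟩
  · rintro ⟨w, w'⟩ h
    rw [mem_product, mem_inter] at h
    rw [mem_product]
    exact ⟨hA w _ (fun i hi => (m1 _ _ i hi).symm) h.1.1,
      hB w _ (fun i hi => (m2 _ _ i hi).symm) h.1.2⟩
  · rintro ⟨w, w'⟩ _
    simp only [Prod.mk.injEq]
    constructor <;> funext i <;> by_cases hi : i ∈ S <;> simp [mix, hi]
  · rintro ⟨w, w'⟩ _
    simp only [Prod.mk.injEq]
    constructor <;> funext i <;> by_cases hi : i ∈ S <;> simp [mix, hi]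

/-- The symmetric local lemma. -/
theorem lll [∀ i, Nonempty (Om i)] {K : Type*} [Fintype K] [DecidableEq K]
    (Bad : K → (∀ i, Om i) → Prop) [∀ k, DecidablePred (Bad k)] (S : K → Finset I)
    (hS : ∀ k w w', (∀ i ∈ S k, w i = w' i) → Bad k w → Bad k w')
    (p : ℝ) (hp0 : 0 ≤ p)
    (hp : ∀ k, ((univ.filter (Bad k)).card : ℝ) ≤ p * Fintype.card (∀ i, Om i))
    (d : ℕ) (hd1 : 1 ≤ d)
    (hd : ∀ k, (univ.filter fun k' => ¬ Disjoint (S k) (S k')).card ≤ d)
    (h4 : 4 * p * d ≤ 1) : ∃ w, ∀ k, ¬ Bad k w := by
  classical
  let N : Finset K → Finset (∀ i, Om i) := fun T => univ.filter fun w => ∀ k ∈ T, ¬ Bad k w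
  have hN : ∀ T w, w ∈ N T ↔ ∀ k ∈ T, ¬ Bad k w := fun T w => by simp [N]
  have hNs : ∀ T w w', (∀ k ∈ T, ∀ i ∈ S k, w i = w' i) → w ∈ N T → w' ∈ N T := by
    intro T w w' h hw
    rw [hN] at hw ⊢
    intro k hk hb
    exact hw k hk (hS k w' w (fun i hi => (h k hk i hi).symm) hb)
  have hOm : (0 : ℝ) < Fintype.card (∀ i, Om i) := by
    exact_mod_cast Fintype.card_pos
  have hpd : 2 * p * d ≤ 1 / 2 := by linarith
  have key : ∀ n : ℕ, ∀ T : Finset K, T.card = n → ∀ k,
      (((N T).filter (Bad k)).card : ℝ) ≤ 2 * p * (N T).card := by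
    intro n
    induction n using Nat.strong_induction_on with
    | _ n ih =>
      intro T hT k
      let T1 := T.filter fun k' => ¬ Disjoint (S k) (S k')
      let T2 := T.filter fun k' => Disjoint (S k) (S k')
      -- independence
      have h1 : ((univ.filter (Bad k)).card : ℝ) * (N T2).card =
          ((univ.filter (Bad k) ∩ N T2).card : ℝ) * Fintype.card (∀ i, Om i) := by
        have := indep (S k) (univ.filter (Bad k)) (N T2)
          (fun w w' h hw => by
            rw [mem_filter] at hw ⊢
            exact ⟨mem_univ _, hS k w w' h hw.2⟩)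
          (fun w w' h hw => hNs T2 w w' (fun k' hk' i hi => h i (fun hik => by
            have hdis := (mem_filter.1 hk').2
            exact (disjoint_left.1 hdis) hik hi)) hw)
        exact_mod_cast this
      have h2 : ((univ.filter (Bad k) ∩ N T2).card : ℝ) ≤ p * (N T2).card := by
        have h3 := mul_le_mul_of_nonneg_right (hp k) (Nat.cast_nonneg (α := ℝ) (N T2).card)
        rw [h1] at h3
        have h4 : ((univ.filter (Bad k) ∩ N T2).card : ℝ) * Fintype.card (∀ i, Om i) ≤
            (p * (N T2).card) * Fintype.card (∀ i, Om i) := by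
          calc _ ≤ p * (Fintype.card (∀ i, Om i)) * ((N T2).card : ℝ) := h3
            _ = _ := by ring
        exact le_of_mul_le_mul_right h4 hOm
      have h3 : (N T).filter (Bad k) ⊆ univ.filter (Bad k) ∩ N T2 := by
        intro w hw
        rw [mem_filter, hN] at hw
        rw [mem_inter, mem_filter, hN]
        exact ⟨⟨mem_univ _, hw.2⟩, fun k' hk' => hw.1 k' (mem_filter.1 hk').1⟩
      have h5 : (((N T).filter (Bad k)).card : ℝ) ≤ p * (N T2).card :=
        le_trans (by exact_mod_cast card_le_card h3) h2
      -- the lower bound for N T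
      have h6 : ((N T2).card : ℝ) ≤ 2 * (N T).card := by
        rcases T1.eq_empty_or_nonempty with h0 | h0
        · have hTT : T2 = T := by
            have := filter_union_filter_not_eq (fun k' => Disjoint (S k) (S k')) T
            change T2 ∪ T1 = T at this
            rw [h0, union_empty] at this
            exact this
          rw [hTT]
          have : (0 : ℝ) ≤ (N T).card := Nat.cast_nonneg _
          linarith
        · have hlt : T2.card < n := by
            have h7 : T2.card + T1.card = T.card :=
              card_filter_add_card_filter_not (s := T) (fun k' => Disjoint (S k) (S k'))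
            have h8 : 0 < T1.card := card_pos.2 h0
            omega
          have h7 : N T2 ⊆ N T ∪ T1.biUnion fun k' => (N T2).filter (Bad k') := by
            intro w hw
            rw [mem_union]
            by_cases hall : w ∈ N T
            · exact Or.inl hall
            · right
              rw [hN] at hall
              push Not at hall
              obtain ⟨k', hk', hb⟩ := hall
              rw [mem_biUnion]
              refine ⟨k', ?_, mem_filter.2 ⟨hw, hb⟩⟩
              rw [mem_filter]
              refine ⟨hk', fun hdis => ?_⟩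
              exact (hN _ _).1 hw k' (mem_filter.2 ⟨hk', hdis⟩) hb
          have h8 : ((N T2).card : ℝ) ≤ (N T).card +
              ∑ k' ∈ T1, (((N T2).filter (Bad k')).card : ℝ) := by
            have h9 := (card_le_card h7).trans (card_union_le _ _)
            have h10 := h9.trans (Nat.add_le_add_left card_biUnion_le _)
            exact_mod_cast h10
          have h9 : ∑ k' ∈ T1, (((N T2).filter (Bad k')).card : ℝ) ≤
              ∑ k' ∈ T1, 2 * p * ((N T2).card : ℝ) :=
            sum_le_sum fun k' _ => ih _ hlt T2 rfl k'
          rw [sum_const, nsmul_eq_mul] at h9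
          have h10 : (T1.card : ℝ) ≤ d := by
            have : T1 ⊆ univ.filter fun k' => ¬ Disjoint (S k) (S k') :=
              fun k' hk' => mem_filter.2 ⟨mem_univ _, (mem_filter.1 hk').2⟩
            exact_mod_cast (card_le_card this).trans (hd k)
          have h11 : (0 : ℝ) ≤ (N T2).card := Nat.cast_nonneg _
          have h12 : (T1.card : ℝ) * (2 * p * ((N T2).card : ℝ)) ≤
              (1 / 2) * ((N T2).card : ℝ) := by
            have h13 : (T1.card : ℝ) * (2 * p * ((N T2).card : ℝ)) ≤
                (d : ℝ) * (2 * p * ((N T2).card : ℝ)) := by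
              apply mul_le_mul_of_nonneg_right h10
              positivity
            have h14 : (d : ℝ) * (2 * p * ((N T2).card : ℝ)) = (2 * p * d) * (N T2).card := by
              ring
            rw [h14] at h13
            exact h13.trans (mul_le_mul_of_nonneg_right hpd h11)
          linarith
      calc (((N T).filter (Bad k)).card : ℝ) ≤ p * (N T2).card := h5
        _ ≤ p * (2 * (N T).card) := mul_le_mul_of_nonneg_left h6 hp0
        _ = 2 * p * (N T).card := by ring
  -- positivity
  have hpos : ∀ T : Finset K, 0 < (N T).card := by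
    intro T
    induction T using Finset.induction_on with
    | empty =>
      have : N ∅ = univ := by
        ext w; simp [N]
      rw [this, card_univ]
      exact Fintype.card_pos
    | insert k T _ ih =>
      have h1 := key _ T rfl k
      have h2 : N T ⊆ N (insert k T) ∪ (N T).filter (Bad k) := by
        intro w hw
        rw [mem_union]
        by_cases hb : Bad k w
        · exact Or.inr (mem_filter.2 ⟨hw, hb⟩)
        · left
          rw [hN] at hw ⊢
          intro k' hk'
          rcases mem_insert.1 hk' with rfl | h
          · exact hb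
          · exact hw k' h
      have h3 : ((N T).card : ℝ) ≤ (N (insert k T)).card + ((N T).filter (Bad k)).card := by
        exact_mod_cast (card_le_card h2).trans (card_union_le _ _)
      have h4 : (0 : ℝ) < (N T).card := by exact_mod_cast ih
      have h5 : 2 * p ≤ 1 / 2 := by
        have h6 : (1 : ℝ) ≤ d := by exact_mod_cast hd1
        nlinarith
      have h6 : 2 * p * ((N T).card : ℝ) ≤ (1 / 2) * (N T).card :=
        mul_le_mul_of_nonneg_right h5 h4.le
      have h7 : (0 : ℝ) < (N (insert k T)).card := by linarith
      exact_mod_cast h7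
  obtain ⟨w, hw⟩ := card_pos.1 (hpos univ)
  exact ⟨w, fun k => (hN _ _).1 hw k (mem_univ k)⟩

end MP433A
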