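import Mathlib

/-!
# Two tail bounds in counting form
-/

namespace MP433A

open Finset

/-- Lower tail for a sum of independent variables with values in `[0, 1]`. -/
theorem lowertail {St : Type*} [Fintype St] [DecidableEq St] {Ω : Type*} [Fintype Ω]
    [DecidableEq Ω] [Nonempty Ω] (X : St → Ω → ℝ) (h0 : ∀ i w, 0 ≤ X i w) (h1 : ∀ i w, X i w ≤ 1)
    (m : ℝ) (hm0 : 0 ≤ m) (hm : m * (Fintype.card Ω : ℝ) ≤ ∑ i, ∑ w, X i w) (s : ℝ) (hs0 : 0 < s)
    (hs1 : s ≤ 1 / 4) :
    ((univ.filter fun w : St → Ω => ∑ i, X i (w i) < (1 - 4 * s) * m).card : ℝ) ≤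
      Real.exp (-(3 * s ^ 2 * m)) * (Fintype.card (St → Ω) : ℝ) := by
  classical
  have h1s : (0 : ℝ) < 1 - s := by linarith
  have hcard : (0 : ℝ) < (Fintype.card Ω : ℝ) := by exact_mod_cast Fintype.card_pos
  let g : St → Ω → ℝ := fun i w => (1 - s) ^ (X i w)
  have hg1 : ∀ i, ∑ w, g i w ≤
      (Fintype.card Ω : ℝ) * Real.exp (-(s * ((∑ w, X i w) / Fintype.card Ω))) := by
    intro i
    have h2 : ∀ w, g i w ≤ 1 - s * X i w := by
      intro w
      have h3 := rpow_one_add_le_one_add_mul_self (s := -s) (by linarith) (h0 i w) (h1 i w)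
      have h4 : (1 : ℝ) + -s = 1 - s := by ring
      rw [h4] at h3
      have h5 : 1 + X i w * -s = 1 - s * X i w := by ring
      rw [h5] at h3
      exact h3
    have h3 : ∑ w, g i w ≤ (Fintype.card Ω : ℝ) - s * ∑ w, X i w := by
      calc ∑ w, g i w ≤ ∑ w, (1 - s * X i w) := sum_le_sum fun w _ => h2 w
        _ = (Fintype.card Ω : ℝ) - s * ∑ w, X i w := by
            rw [sum_sub_distrib, sum_const, card_univ, nsmul_eq_mul, mul_one, mul_sum]
    refine h3.trans ?_
    have h4 := Real.add_one_le_exp (-(s * ((∑ w, X i w) / Fintype.card Ω)))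
    have h5 := mul_le_mul_of_nonneg_left h4 hcard.le
    have h6 : (Fintype.card Ω : ℝ) * (-(s * ((∑ w, X i w) / Fintype.card Ω)) + 1) =
        (Fintype.card Ω : ℝ) - s * ∑ w, X i w := by
      field_simp
      ring
    rw [h6] at h5
    exact h5
  have hg0 : ∀ i, 0 ≤ ∑ w, g i w := fun i =>
    sum_nonneg fun w _ => Real.rpow_nonneg h1s.le _
  have hprod : ∀ w : St → Ω, ∏ i, g i (w i) = (1 - s) ^ (∑ i, X i (w i)) := by
    intro w
    simp only [g]
    rw [Real.rpow_sum_of_pos h1s]
  have hsum : ∑ w : St → Ω, (1 - s) ^ (∑ i, X i (w i)) = ∏ i, ∑ w, g i w := by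
    rw [prod_univ_sum, Fintype.piFinset_univ]
    exact sum_congr rfl fun w _ => (hprod w).symm
  have hG : ∑ w : St → Ω, (1 - s) ^ (∑ i, X i (w i)) ≤
      Real.exp (-(s * m)) * (Fintype.card (St → Ω) : ℝ) := by
    rw [hsum]
    calc ∏ i, ∑ w, g i w ≤
        ∏ i, ((Fintype.card Ω : ℝ) * Real.exp (-(s * ((∑ w, X i w) / Fintype.card Ω)))) :=
          prod_le_prod (fun i _ => hg0 i) (fun i _ => hg1 i)
      _ = (Fintype.card Ω : ℝ) ^ (Fintype.card St) *
            Real.exp (∑ i, -(s * ((∑ w, X i w) / Fintype.card Ω))) := by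
          rw [prod_mul_distrib, prod_const, card_univ, Real.exp_sum]
      _ ≤ (Fintype.card Ω : ℝ) ^ (Fintype.card St) * Real.exp (-(s * m)) := by
          apply mul_le_mul_of_nonneg_left _ (by positivity)
          apply Real.exp_le_exp.2
          rw [sum_neg_distrib, ← mul_sum, ← sum_div]
          apply neg_le_neg
          apply mul_le_mul_of_nonneg_left _ hs0.le
          rw [le_div_iff₀ hcard]
          exact hm
      _ = _ := by
          rw [mul_comm]
          congr 1
          rw [Fintype.card_fun]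
          push_cast
          rfl
  have hM : ((univ.filter fun w : St → Ω => ∑ i, X i (w i) < (1 - 4 * s) * m).card : ℝ) *
      Real.exp ((1 - 4 * s) * m * Real.log (1 - s)) ≤
      ∑ w : St → Ω, (1 - s) ^ (∑ i, X i (w i)) := by
    rw [← nsmul_eq_mul, ← sum_const, sum_filter]
    refine sum_le_sum fun w _ => ?_
    split_ifs with h
    · rw [Real.rpow_def_of_pos h1s]
      apply Real.exp_le_exp.2
      rw [mul_comm]
      exact mul_le_mul_of_nonpos_left h.le (Real.log_nonpos h1s.le (by linarith))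
    · exact Real.rpow_nonneg h1s.le _
  have hfin := hM.trans hG
  have hexp : Real.exp (-(s * m)) ≤
      Real.exp (-(3 * s ^ 2 * m)) * Real.exp ((1 - 4 * s) * m * Real.log (1 - s)) := by
    rw [← Real.exp_add]
    apply Real.exp_le_exp.2
    have hlog : -(s / (1 - s)) ≤ Real.log (1 - s) := by
      have := Real.one_sub_inv_le_log_of_pos h1s
      have h2 : 1 - (1 - s)⁻¹ = -(s / (1 - s)) := by
        field_simp
        ring
      rw [h2] at this
      exact this
    have hk0 : 0 ≤ (1 - 4 * s) * m := by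
      have : (0 : ℝ) ≤ 1 - 4 * s := by linarith
      positivity
    have h3 := mul_le_mul_of_nonneg_left hlog hk0
    have h4 : -((1 - 3 * s) * s) * m ≤ (1 - 4 * s) * m * (-(s / (1 - s))) := by
      have h5 : (1 - 4 * s) * m * (-(s / (1 - s))) = -((1 - 4 * s) / (1 - s) * s) * m := by
        field_simp
      rw [h5]
      apply mul_le_mul_of_nonneg_right _ hm0
      apply neg_le_neg
      apply mul_le_mul_of_nonneg_right _ hs0.le
      rw [div_le_iff₀ h1s]
      nlinarith [sq_nonneg s]
    have h6 : -(s * m) = -(3 * s ^ 2 * m) + -((1 - 3 * s) * s) * m := by ring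
    rw [h6]
    linarith
  have hpos : 0 < Real.exp ((1 - 4 * s) * m * Real.log (1 - s)) := Real.exp_pos _
  have hfin2 : ((univ.filter fun w : St → Ω => ∑ i, X i (w i) < (1 - 4 * s) * m).card : ℝ) *
      Real.exp ((1 - 4 * s) * m * Real.log (1 - s)) ≤
      (Real.exp (-(3 * s ^ 2 * m)) * (Fintype.card (St → Ω) : ℝ)) *
        Real.exp ((1 - 4 * s) * m * Real.log (1 - s)) := by
    refine hfin.trans ?_
    calc Real.exp (-(s * m)) * (Fintype.card (St → Ω) : ℝ)
        ≤ (Real.exp (-(3 * s ^ 2 * m)) * Real.exp ((1 - 4 * s) * m * Real.log (1 - s))) *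
          (Fintype.card (St → Ω) : ℝ) := mul_le_mul_of_nonneg_right hexp (Nat.cast_nonneg _)
      _ = _ := by ring
  exact le_of_mul_le_mul_right hfin2 hpos

/-- Upper tail for the number of hits of independent uniform picks. -/
theorem hits {I : Type*} [Fintype I] [DecidableEq I] (L : ℕ) (hL : 0 < L)
    (hit : I → Fin L → Prop) [∀ e, DecidablePred (hit e)] (c : ℝ)
    (hc : ∑ e, ((univ.filter (hit e)).card : ℝ) ≤ c) (θ : ℝ) (hθ : 0 ≤ θ) (k : ℝ) :
    ((univ.filter fun w : I → Fin L => k < ((univ.filter fun e => hit e (w e)).card : ℝ)).card : ℝ)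
      ≤ Real.exp (θ * c / L - k * Real.log (1 + θ)) * (Fintype.card (I → Fin L) : ℝ) := by
  classical
  have hLr : (0 : ℝ) < L := by exact_mod_cast hL
  have h1θ : (0 : ℝ) < 1 + θ := by linarith
  let g : I → Fin L → ℝ := fun e v => if hit e v then 1 + θ else 1
  have hprod : ∀ w : I → Fin L, ∏ e, g e (w e) =
      (1 + θ) ^ (univ.filter fun e => hit e (w e)).card := by
    intro w
    simp only [g]
    rw [prod_ite, prod_const_one, mul_one, prod_const]
  have hsum : ∑ w : I → Fin L, (1 + θ) ^ (univ.filter fun e => hit e (w e)).card =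
      ∏ e, ∑ v, g e v := by
    rw [prod_univ_sum, Fintype.piFinset_univ]
    exact sum_congr rfl fun w _ => (hprod w).symm
  have hg0 : ∀ e, 0 ≤ ∑ v, g e v := by
    intro e
    refine sum_nonneg fun v _ => ?_
    simp only [g]
    split_ifs
    · exact h1θ.le
    · exact zero_le_one
  have hg1 : ∀ e, ∑ v, g e v ≤
      (L : ℝ) * Real.exp (θ * ((univ.filter (hit e)).card : ℝ) / L) := by
    intro e
    have h2 : ∀ v, g e v = 1 + (if hit e v then θ else 0) := by
      intro v
      simp only [g]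
      split_ifs <;> ring
    rw [sum_congr rfl fun v _ => h2 v, sum_add_distrib, sum_const, card_univ, Fintype.card_fin,
      nsmul_eq_mul, mul_one, ← sum_filter, sum_const, nsmul_eq_mul]
    have h4 := Real.add_one_le_exp (θ * ((univ.filter (hit e)).card : ℝ) / L)
    have h5 := mul_le_mul_of_nonneg_left h4 hLr.le
    have h6 : (L : ℝ) * (θ * ((univ.filter (hit e)).card : ℝ) / L + 1) =
        L + ((univ.filter (hit e)).card : ℝ) * θ := by
      field_simp
      ring
    rw [h6] at h5
    exact h5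
  have hG : ∑ w : I → Fin L, (1 + θ) ^ (univ.filter fun e => hit e (w e)).card ≤
      Real.exp (θ * c / L) * (Fintype.card (I → Fin L) : ℝ) := by
    rw [hsum]
    calc ∏ e, ∑ v, g e v ≤ ∏ e : I, ((L : ℝ) *
          Real.exp (θ * ((univ.filter (hit e)).card : ℝ) / L)) :=
          prod_le_prod (fun e _ => hg0 e) (fun e _ => hg1 e)
      _ = (L : ℝ) ^ (Fintype.card I) *
            Real.exp (∑ e, θ * ((univ.filter (hit e)).card : ℝ) / L) := by
          rw [prod_mul_distrib, prod_const, card_univ, Real.exp_sum]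
      _ ≤ (L : ℝ) ^ (Fintype.card I) * Real.exp (θ * c / L) := by
          apply mul_le_mul_of_nonneg_left _ (by positivity)
          apply Real.exp_le_exp.2
          rw [← sum_div, ← mul_sum]
          apply div_le_div_of_nonneg_right _ hLr.le
          exact mul_le_mul_of_nonneg_left hc hθ
      _ = _ := by
          simp only [Fintype.card_fun, Fintype.card_fin, Nat.cast_pow]
          rw [mul_comm]
  have hM : ((univ.filter fun w : I → Fin L =>
      k < ((univ.filter fun e => hit e (w e)).card : ℝ)).card : ℝ) *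
        Real.exp (k * Real.log (1 + θ)) ≤
      ∑ w : I → Fin L, (1 + θ) ^ (univ.filter fun e => hit e (w e)).card := by
    rw [← nsmul_eq_mul, ← sum_const, sum_filter]
    refine sum_le_sum fun w _ => ?_
    split_ifs with h
    · have h2 : (1 + θ) ^ (univ.filter fun e => hit e (w e)).card =
          Real.exp (((univ.filter fun e => hit e (w e)).card : ℝ) * Real.log (1 + θ)) := by
        rw [Real.exp_nat_mul, Real.exp_log h1θ]
      rw [h2]
      apply Real.exp_le_exp.2
      exact mul_le_mul_of_nonneg_right h.le (Real.log_nonneg (by linarith))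
    · positivity
  have hfin := hM.trans hG
  rw [Real.exp_sub]
  rw [div_mul_eq_mul_div, le_div_iff₀ (Real.exp_pos _)]
  exact hfin

/-- The exponent of the upper tail. -/
lemma exponent (ε c L : ℝ) (hε0 : 0 < ε) (hε1 : ε ≤ 1) (hc : 0 ≤ c) (hL : 0 < L) :
    ε / 4 * c / L - (1 + ε) * c / L * Real.log (1 + ε / 4) ≤ -(ε ^ 2 * c / (16 * L)) := by
  have h7 : 2 * (ε / 4) / (ε / 4 + 2) ≤ Real.log (1 + ε / 4) :=
    Real.le_log_one_add_of_nonneg (by positivity)
  have hk0 : 0 ≤ (1 + ε) * c / L := by positivity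
  have h8 := mul_le_mul_of_nonneg_left h7 hk0
  have h9 : (ε / 4) * (1 + ε / 4) ≤ (1 + ε) * (2 * (ε / 4) / (ε / 4 + 2)) := by
    rw [← mul_div_assoc, le_div_iff₀ (by positivity)]
    nlinarith [mul_pos hε0 hε0, mul_pos (mul_pos hε0 hε0) hε0,
      mul_nonneg hε0.le (sub_nonneg.2 hε1),
      mul_nonneg (mul_nonneg hε0.le hε0.le) (sub_nonneg.2 hε1)]
  have hcL : 0 ≤ c / L := by positivity
  have h10 := mul_le_mul_of_nonneg_right h9 hcL
  have h11 : (1 + ε) * (2 * (ε / 4) / (ε / 4 + 2)) * (c / L) =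
      (1 + ε) * c / L * (2 * (ε / 4) / (ε / 4 + 2)) := by ring
  rw [h11] at h10
  have h12 : ε / 4 * c / L - (ε / 4) * (1 + ε / 4) * (c / L) = -(ε ^ 2 * c / (16 * L)) := by
    field_simp
    ring
  linarith

end MP433A
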