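import Mathlib
import Pool.Agent.Work.MP_433a35_co.Asm.LLL
import Pool.Agent.Work.MP_433a35_co.Asm.Tail

/-!
# From a random stage to a strong edge colouring

Abstract form: a random local stage gives every oriented edge a number of accepted levels, the
conflict set of an accepted edge has bounded total level and every edge has a large expected
level.  Two applications of the local lemma then give a strong edge colouring.
-/

namespace MP433A

open Finset

set_option linter.unusedSectionVars false

/-- Greedy colouring along an injective rank function. -/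
lemma greedy {Y : Type*} [DecidableEq Y] [Fintype Y] (a : ℕ) (r : Y → ℕ)
    (hr : Function.Injective r) (P : Y → Prop) (conf : Y → Y → Prop)
    (hs : ∀ y z, conf y z → conf z y)
    (h : ∀ y, P y → ∃ T : Finset Y, T.card < a ∧ ∀ z, r z < r y → conf y z → z ∈ T) :
    ∃ c : Y → ℕ, (∀ y, P y → c y < a) ∧ ∀ y z, P y → P z → y ≠ z → conf y z → c y ≠ c z := by
  have key : ∀ m : ℕ, ∃ c : Y → ℕ, (∀ y, P y → r y < m → c y < a) ∧
      ∀ y z, P y → P z → r y < m → r z < m → y ≠ z → conf y z → c y ≠ c z := by
    intro m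
    induction m with
    | zero => exact ⟨fun _ => 0, fun y _ hy => absurd hy (Nat.not_lt_zero _),
        fun y _ _ _ hy => absurd hy (Nat.not_lt_zero _)⟩
    | succ m ih =>
      obtain ⟨c, hc1, hc2⟩ := ih
      by_cases hex : ∃ y0, P y0 ∧ r y0 = m
      · obtain ⟨y0, hP0, hy0⟩ := hex
        obtain ⟨T, hT, hTm⟩ := h y0 hP0
        have hlt : (T.image c).card < (range a).card := by
          rw [card_range]; exact lt_of_le_of_lt card_image_le hT
        obtain ⟨k, hk, hkT⟩ := exists_mem_notMem_of_card_lt_card hlt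
        rw [mem_range] at hk
        have hne : ∀ y, r y < m → y ≠ y0 := by
          rintro y hy rfl
          omega
        have heq : ∀ y, r y < m + 1 → y ≠ y0 → r y < m := by
          intro y hy hyne
          rcases Nat.lt_or_ge (r y) m with h1 | h1
          · exact h1
          · exact absurd (hr (by omega : r y = r y0)) hyne
        have hnew : ∀ z, r z < m → conf y0 z → k ≠ c z := by
          intro z hz hcz hkz
          exact hkT (mem_image.2 ⟨z, hTm z (by omega) hcz, hkz.symm⟩)
        refine ⟨Function.update c y0 k, ?_, ?_⟩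
        · intro y hP hy
          by_cases hyy : y = y0
          · subst hyy; rw [Function.update_self]; exact hk
          · rw [Function.update_of_ne hyy]; exact hc1 y hP (heq y hy hyy)
        · intro y z hPy hPz hy hz hyz hconf
          by_cases hyy : y = y0
          · subst hyy
            have hzy : z ≠ y := fun h => hyz h.symm
            rw [Function.update_self, Function.update_of_ne hzy]
            exact hnew z (heq z hz hzy) hconf
          · by_cases hzz : z = y0
            · subst hzz
              rw [Function.update_self, Function.update_of_ne hyy]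
              exact (hnew y (heq y hy hyy) (hs _ _ hconf)).symm
            · rw [Function.update_of_ne hyy, Function.update_of_ne hzz]
              exact hc2 y z hPy hPz (heq y hy hyy) (heq z hz hzz) hyz hconf
      · have heq : ∀ y, P y → r y < m + 1 → r y < m := by
          intro y hP hy
          rcases Nat.lt_or_ge (r y) m with h1 | h1
          · exact h1
          · exact absurd ⟨y, hP, by omega⟩ hex
        exact ⟨c, fun y hP hy => hc1 y hP (heq y hP hy), fun y z hPy hPz hy hz =>
          hc2 y z hPy hPz (heq y hPy hy) (heq z hPz hz)⟩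
  obtain ⟨m, hm⟩ : ∃ m, ∀ y, r y < m := by
    refine ⟨(univ.sup r) + 1, fun y => ?_⟩
    exact Nat.lt_succ_of_le (le_sup (mem_univ y))
  obtain ⟨c, hc1, hc2⟩ := key m
  exact ⟨c, fun y hP => hc1 y hP (hm y), fun y z hPy hPz => hc2 y z hPy hPz (hm y) (hm z)⟩


section
variable {V : Type*} [Fintype V] [DecidableEq V] (G : SimpleGraph V) [DecidableRel G.Adj]

/-- The two ordered pairs share a vertex or are joined by an edge. -/
def Conf (x y x' y' : V) : Prop :=
  x = x' ∨ x = y' ∨ y = x' ∨ y = y' ∨ G.Adj x x' ∨ G.Adj x y' ∨ G.Adj y x' ∨ G.Adj y y'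

lemma conf_of {x y x' y' : V}
    (h : ∃ u v, u ∈ s(x, y) ∧ v ∈ s(x', y') ∧ (u = v ∨ G.Adj u v)) : Conf G x y x' y' := by
  obtain ⟨u, v, hu, hv, h⟩ := h
  rw [Sym2.mem_iff] at hu hv
  unfold Conf
  rcases hu with rfl | rfl <;> rcases hv with rfl | rfl <;> rcases h with h | h <;> simp [h]

/-- Putting the stages together. -/
lemma combine {St : Type*} [Fintype St] [DecidableEq St] (p : Sym2 V → St) (d : St → ℕ)
    (c : St → Sym2 V → ℕ)
    (hc1 : ∀ e ∈ G.edgeSet, c (p e) e < d (p e))
    (hc2 : ∀ e ∈ G.edgeSet, ∀ f ∈ G.edgeSet, p e = p f → e ≠ f →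
      (∃ u v, u ∈ e ∧ v ∈ f ∧ (u = v ∨ G.Adj u v)) → c (p e) e ≠ c (p e) f) :
    ∃ col : Sym2 V → ℕ, (∀ e ∈ G.edgeSet, col e < ∑ i, d i) ∧
      ∀ e ∈ G.edgeSet, ∀ f ∈ G.edgeSet, e ≠ f →
        (∃ u v, u ∈ e ∧ v ∈ f ∧ (u = v ∨ G.Adj u v)) → col e ≠ col f := by
  classical
  let E := Fintype.equivFin (Σ i, Fin (d i))
  have hcard : Fintype.card (Σ i, Fin (d i)) = ∑ i, d i := by
    simp
  refine ⟨fun e => if h : c (p e) e < d (p e) then (E ⟨p e, ⟨c (p e) e, h⟩⟩).val else 0, ?_, ?_⟩
  · intro e he
    simp only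
    rw [dif_pos (hc1 e he), ← hcard]
    exact (E _).isLt
  · intro e he f hf hne hconf heq
    simp only at heq
    rw [dif_pos (hc1 e he), dif_pos (hc1 f hf)] at heq
    have h1 := E.injective (Fin.ext heq)
    have h2 : p e = p f := congrArg Sigma.fst h1
    have h3 : c (p e) e = c (p f) f := by
      have := congrArg (fun q : (Σ i, Fin (d i)) => q.2.val) h1
      exact this
    rw [← h2] at h3
    exact hc2 e he f hf h2 hne hconf h3

/-- The thinned stage. -/
lemma thinned (P : Sym2 V → Prop) (ox oy : Sym2 V → V) (hox : ∀ e, P e → e = s(ox e, oy e))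
    (rank : V → V → ℕ) (T : V → V → Finset V)
    (hT : ∀ e f, P e → P f → rank (ox f) (oy f) ≤ rank (ox e) (oy e) →
      Conf G (ox e) (oy e) (ox f) (oy f) → oy f ∈ T (ox e) (oy e)) (d : ℕ)
    (hd : ∀ e, P e → ∃ S : Finset (Sym2 V), S.card ≤ d ∧
      ∀ f, P f → oy f ∈ T (ox e) (oy e) → f ∈ S) :
    ∃ c : Sym2 V → ℕ, (∀ e, P e → c e < d) ∧
      ∀ e f, P e → P f → e ≠ f →
        (∃ u v, u ∈ e ∧ v ∈ f ∧ (u = v ∨ G.Adj u v)) → c e ≠ c f := by
  classical
  let σ := Fintype.equivFin (Sym2 V)
  let n := Fintype.card (Sym2 V)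
  have hσ : ∀ e, (σ e).val < n := fun e => (σ e).isLt
  obtain ⟨c, hc1, hc2⟩ := greedy (Y := Sym2 V) d (fun e => rank (ox e) (oy e) * n + (σ e).val)
    (by
      intro y z hyz
      simp only at hyz
      have h3 : (σ y).val = (σ z).val := by
        have := congrArg (· % n) hyz
        simp only [Nat.mul_add_mod_self_right, Nat.mod_eq_of_lt (hσ y),
          Nat.mod_eq_of_lt (hσ z)] at this
        exact this
      exact σ.injective (Fin.ext h3))
    P
    (fun e f => P e ∧ P f ∧ ∃ u v, u ∈ e ∧ v ∈ f ∧ (u = v ∨ G.Adj u v))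
    (by
      rintro e f ⟨he, hf, u, v, hu, hv, h⟩
      exact ⟨hf, he, v, u, hv, hu, h.imp Eq.symm fun h => h.symm⟩)
    (by
      intro e he
      obtain ⟨S, hS, hSm⟩ := hd e he
      have hself : e ∈ S := hSm e he (hT e e he he le_rfl (Or.inl rfl))
      refine ⟨S.erase e, ?_, ?_⟩
      · rw [card_erase_of_mem hself]
        have : 0 < S.card := card_pos.2 ⟨e, hself⟩
        omega
      · rintro f hlt ⟨_, hf, hconf⟩
        have hne : f ≠ e := by
          rintro rfl
          exact lt_irrefl _ hlt
        rw [mem_erase]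
        refine ⟨hne, hSm f hf (hT e f he hf ?_ ?_)⟩
        · by_contra hcon
          push Not at hcon
          have h1 : (rank (ox e) (oy e) + 1) * n ≤ rank (ox f) (oy f) * n :=
            Nat.mul_le_mul_right _ hcon
          have h2 := hσ e
          rw [add_mul, one_mul] at h1
          omega
        · rw [hox e he, hox f hf] at hconf
          exact conf_of G hconf)
  exact ⟨c, hc1, fun e f he hf hne hconf => hc2 e f he hf hne ⟨he, hf, hconf⟩⟩

end

end MP433A
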